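import Pool.Agent.H.MP_4dd1f4_al.A

set_option autoImplicit false
open MulAction Equiv

namespace Pool.Agent.Results.MP_4dd1f4_al.No

open Pool.Agent.H.MP_4dd1f4_al Quandles

/-- The inner automorphism group: the subgroup of `Sym(P)` generated by the maps `s_x`. -/
def Inn (P : Type*) [Quandle P] : Subgroup (Perm P) := Subgroup.closure (Set.range Rack.act')

/-- `f` is surjective and the inner automorphisms mapping every fiber to itself act
2-transitively on each fiber. -/
def DT {P Q : Type*} [Quandle P] [Quandle Q] (f : ShelfHom P Q) : Prop :=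
  Function.Surjective f ∧ ∀ (q : Q) (a b c d : P), f a = q → f b = q → f c = q → f d = q →
    a ≠ b → c ≠ d → ∃ g ∈ Inn P, (∀ x, f (g x) = f x) ∧ g a = c ∧ g b = d

variable {P Q : Type*} [Quandle P] [Quandle Q] (f : ShelfHom P Q)

lemma aut {g : Perm P} (h : g ∈ Inn P) : (∀ x y, g (x ◃ y) = g x ◃ g y) ∧
    ∀ x y, f (g x) = f (g y) ↔ f x = f y := by
  induction h using Subgroup.closure_induction with
  | mem g h =>
    obtain ⟨z, rfl⟩ := h
    exact ⟨fun x y => Shelf.self_distrib, fun x y => by simp [Rack.left_cancel]⟩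
  | one => simp
  | mul a b _ _ p q => simp [p.1, q.1, p.2, q.2]
  | inv a _ p => exact ⟨fun x y => a.injective (by simp [p.1]), fun x y => by
      rw [← p.2]; simp⟩

def N : Subgroup (Perm P) where
  carrier := {g | g ∈ Inn P ∧ ∀ x, f (g x) = f x}
  one_mem' := ⟨one_mem _, fun _ => rfl⟩
  mul_mem' a b := ⟨mul_mem a.1 b.1, fun x => (a.2 _).trans (b.2 _)⟩
  inv_mem' {g} a := ⟨inv_mem a.1, fun x => by rw [← a.2]; simp⟩

instance act (q : Q) : MulAction (N f) {x // f x = q} where
  smul n x := ⟨n.1 x, (n.2.2 _).trans x.2⟩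
  one_smul _ := rfl
  mul_smul _ _ _ := rfl

lemma fib {g : Perm P} (h : g ∈ Inn P) (x : P) :
    Nat.card {y // f y = f (g x)} = Nat.card {y // f y = f x} :=
  (Nat.card_congr (g.subtypeEquiv fun y => ((aut f h).2 y x).symm)).symm

theorem result {P Q : Type*} [Quandle P] [Quandle Q] (f : ShelfHom P Q) (h : DT f) (q : Q) :
    Nat.card {x // f x = q} ≠ 6 := fun c => by
  have t : ∀ q, T2 (N f) {x // f x = q} := fun q a b c d ab cd => by
    obtain ⟨g, h1, h2, h3, h4⟩ := h.2 q a b c d a.2 b.2 c.2 d.2 (Subtype.coe_ne_coe.2 ab)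
      (Subtype.coe_ne_coe.2 cd)
    exact ⟨⟨g, h1, h2⟩, Subtype.ext h3, Subtype.ext h4⟩
  have fin : ∀ {q}, Nat.card {x // f x = q} = 6 → Finite {x // f x = q} := fun c =>
    Nat.finite_of_card_ne_zero (by omega)
  have s : ∀ x : P, Rack.act' x ∈ Inn P := fun x => Subgroup.subset_closure ⟨x, rfl⟩
  by_cases e : ∀ a b z : P, f a = f b → Nat.card {x // f x = f z} = 6 → a ◃ z = b ◃ z
  · have k : ∀ n : N f, ∀ g ∈ Inn P, ∀ z, Nat.card {x // f x = f z} = 6 →
        n.1 (g z) = g (n.1 z) := fun n g hg => by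
      induction hg using Subgroup.closure_induction with
      | mem g h =>
        obtain ⟨y, rfl⟩ := h
        exact fun z hz => ((aut f n.2.1).1 y z).trans (e _ _ _ (n.2.2 y) (by rwa [n.2.2]))
      | one => simp
      | mul a b _ hb p q =>
        exact fun z hz => (p _ ((fib f hb z).trans hz)).trans (congrArg a (q z hz))
      | inv a ha p =>
        refine fun z hz => a.injective ?_
        rw [← p _ ((fib f (inv_mem ha) z).trans hz)]
        simp
    have := fin c
    have : Nontrivial {x // f x = q} := Finite.one_lt_card_iff_nontrivial.1 (by omega)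
    obtain ⟨a, b, ab⟩ := exists_pair_ne {x // f x = q}
    obtain ⟨u, rfl, -⟩ := t q a b b a ab ab.symm
    exact comm c (t q) ⊤ (Subgroup.mem_top u) ab.symm ab.symm fun l _ w =>
      Subtype.ext (k u _ l.2.1 w (by rwa [w.2]))
  push Not at e
  obtain ⟨a, b, z, ab, c, e⟩ := e
  have c' := (fib f (s a) z).trans c
  have := fin c
  have := fin c'
  refine H.MP_4dd1f4_al.abs c c' (t _) (t _) (t (f a)) (fun y w => ⟨y.1 ◃ w.1, by simp [y.2, w.2]⟩)
    (fun y v w h => Subtype.ext ((Rack.left_cancel _).1 (congrArg Subtype.val h)))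
    (fun n y w => Subtype.ext ((aut f n.2.1).1 _ _).symm) (a := ⟨a, rfl⟩) (b := ⟨b, ab.symm⟩)
    (z := ⟨z, rfl⟩) (fun h => e (congrArg Subtype.val h))
    (fun y => Perm.subtypePerm (Rack.act' y.1) fun x => by
      have := (aut f (s y)).2 x y
      rwa [Rack.act'_apply y.1 y.1, Quandle.fix, y.2] at this)
    (fun y => Subtype.ext Quandle.fix) (fun n y w => Subtype.ext ((aut f n.2.1).1 _ _).symm)
    fun y y' => ⟨⟨(Rack.act' y.1)⁻¹ * Rack.act' y'.1, mul_mem (inv_mem (s _)) (s _), fun x => ?_⟩,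
      fun w => Subtype.ext ((Rack.act' y.1).apply_symm_apply _),
      fun w => Subtype.ext ((Rack.act' y.1).apply_symm_apply _)⟩
  rw [← (aut f (s y)).2]
  simp [y.2, y'.2]

end Pool.Agent.Results.MP_4dd1f4_al.No
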